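import Pool.Agent.Q218.LE.Stm

/-! Project LE (helper218), job EXP: the mean over the disorder of the correlation function. -/

set_option autoImplicit false
set_option linter.unusedSectionVars false

open scoped BigOperators ComplexConjugate
open MeasureTheory

namespace Pool.Agent.Q246.LE.EX

open Pool.Agent.H4R2.LO (Zd bx)
open Pool.Agent.TH794.HK (ph ph_norm)
open Pool.Agent.TH794.QD (Sol)
open Pool.Agent.W788.LD.Spec (S)
open Pool.Agent.Q218.AT (Sc)
open Pool.Agent.Q218.UD (sol_unique)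

variable {d : ℕ}

/-- the shift -/
def sh (y : Zd d) (ω : Zd d → ℝ) : Zd d → ℝ := fun z => ω (z + y)

theorem sh_mp (μ : Measure ℝ) [IsProbabilityMeasure μ] (y : Zd d) :
    MeasurePreserving (sh y) (Measure.infinitePi fun _ : Zd d => μ)
      (Measure.infinitePi fun _ : Zd d => μ) := by
  refine ⟨measurable_pi_lambda _ fun z => measurable_pi_apply _, ?_⟩
  have h := Measure.infinitePi_map_piCongrLeft (X := fun _ : Zd d => ℝ)
    (μ := fun _ : Zd d => μ) (Equiv.addRight y).symm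
  conv_rhs => rw [← h]
  congr 1
  funext z i
  have h1 := Equiv.piCongrLeft_apply (fun _ : Zd d => ℝ) (Equiv.addRight y).symm z i
  rw [MeasurableEquiv.coe_piCongrLeft, h1]
  simp [sh]

/-- translation of the solution -/
theorem sol_shift {lam : ℝ} {ψ : (Zd d → ℝ) → Zd d → ℝ → Zd d → ℂ}
    (hψ : ∀ ω a, Sol d (fun x => lam * ω x) a (ψ ω a)) (ω : Zd d → ℝ) (y : Zd d) (t : ℝ)
    (x : Zd d) : ψ ω y t x = ψ (sh y ω) 0 t (x - y) := by
  have h := hψ (sh y ω) 0
  have h1 : Sol d (fun x => lam * ω x) y fun t x => ψ (sh y ω) 0 t (x - y) := by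
    refine ⟨fun x => ?_, fun s x => ?_, fun s => ?_⟩
    · simp only [h.init, sub_eq_zero]
    · have h2 := h.ode s (x - y)
      convert h2 using 2
      simp only [S, sh, sub_add_cancel]
      congr 2
      refine Finset.sum_congr rfl fun i _ => ?_
      congr 2
      · abel
      · abel
    · exact (Equiv.subRight y).hasSum_iff.2 (h.norm s)
  have h3 := sol_unique (hψ ω y) h1
  exact congrFun (congrFun h3 t) x

/-- the time average -/
noncomputable def gg (ψ : (Zd d → ℝ) → Zd d → ℝ → Zd d → ℂ) (T : ℝ) (y x : Zd d)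
    (ω : Zd d → ℝ) : ℝ := ∫ u in (0 : ℝ)..1, 2 * (1 - u) * ‖ψ ω y (u * T) x‖ ^ 2

section

variable {lam T : ℝ} {ψ : (Zd d → ℝ) → Zd d → ℝ → Zd d → ℂ}
  (hψ : ∀ ω a, Sol d (fun x => lam * ω x) a (ψ ω a))

include hψ

theorem cu (y x : Zd d) (ω : Zd d → ℝ) :
    Continuous fun u : ℝ => 2 * (1 - u) * ‖ψ ω y (u * T) x‖ ^ 2 := by
  have := (hψ ω y).cont x
  have h2 : Continuous fun u : ℝ => ψ ω y (u * T) x := this.comp (continuous_mul_const T)
  fun_prop

theorem gg_meas (hM : ∀ (y : Zd d) (t : ℝ) (x : Zd d), Measurable fun ω => ψ ω y t x)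
    (y x : Zd d) : StronglyMeasurable (gg ψ T y x) := by
  unfold gg
  simp only [intervalIntegral.integral_of_le zero_le_one]
  have h1 : StronglyMeasurable (Function.uncurry
      fun (u : ℝ) (ω : Zd d → ℝ) => 2 * (1 - u) * ‖ψ ω y (u * T) x‖ ^ 2) :=
    stronglyMeasurable_uncurry_of_continuous_of_stronglyMeasurable (fun ω => cu hψ y x ω)
      fun u => (((hM y (u * T) x).norm.pow_const 2).const_mul _).stronglyMeasurable
  exact h1.integral_prod_left

theorem gg_nonneg (y x : Zd d) (ω : Zd d → ℝ) : 0 ≤ gg ψ T y x ω := by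
  unfold gg
  refine intervalIntegral.integral_nonneg zero_le_one fun u hu => ?_
  have := hu.2
  have : 0 ≤ 1 - u := by linarith
  positivity

theorem gg_sum (y : Zd d) (s : Finset (Zd d)) (ω : Zd d → ℝ) :
    ∑ x ∈ s, gg ψ T y x ω ≤ 1 := by
  unfold gg
  rw [← intervalIntegral.integral_finsetSum fun x _ => (cu hψ y x ω).intervalIntegrable 0 1]
  have h1 : ∫ u in (0 : ℝ)..1, 2 * (1 - u) = 1 := by
    rw [intervalIntegral.integral_const_mul, intervalIntegral.integral_sub (by simp) (by simp)]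
    simp
    norm_num
  refine le_trans ?_ h1.le
  refine intervalIntegral.integral_mono_on zero_le_one ?_ ?_ fun u hu => ?_
  · exact (continuous_finsetSum _ fun x _ => cu hψ y x ω).intervalIntegrable 0 1
  · exact (by fun_prop : Continuous fun u : ℝ => 2 * (1 - u)).intervalIntegrable 0 1
  · rw [← Finset.mul_sum]
    have h2 : ∑ x ∈ s, ‖ψ ω y (u * T) x‖ ^ 2 ≤ 1 :=
      sum_le_hasSum s (fun x _ => sq_nonneg _) ((hψ ω y).norm (u * T))
    have h3 := hu.2
    have : 0 ≤ 2 * (1 - u) := by linarith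
    nlinarith

theorem gg_le (y x : Zd d) (ω : Zd d → ℝ) : gg ψ T y x ω ≤ 1 := by
  have := gg_sum (T := T) hψ y {x} ω
  rwa [Finset.sum_singleton] at this

theorem gg_shift (y x : Zd d) (ω : Zd d → ℝ) : gg ψ T y x ω = gg ψ T 0 (x - y) (sh y ω) := by
  unfold gg
  refine intervalIntegral.integral_congr fun u _ => ?_
  rw [sol_shift hψ ω y]

variable {μ : Measure ℝ} [IsProbabilityMeasure μ]
  (hM : ∀ (y : Zd d) (t : ℝ) (x : Zd d), Measurable fun ω => ψ ω y t x)

include hM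

theorem gg_int (y x : Zd d) :
    Integrable (gg ψ T y x) (Measure.infinitePi fun _ : Zd d => μ) := by
  refine Integrable.of_bound (gg_meas hψ hM y x).aestronglyMeasurable 1
    (Filter.Eventually.of_forall fun ω => ?_)
  rw [Real.norm_eq_abs, abs_of_nonneg (gg_nonneg hψ y x ω)]
  exact gg_le hψ y x ω

omit hψ hM in
/-- the mean -/
noncomputable def PP (ψ : (Zd d → ℝ) → Zd d → ℝ → Zd d → ℂ) (T : ℝ) (μ : Measure ℝ) (z : Zd d) :
    ℝ := ∫ ω, gg ψ T 0 z ω ∂(Measure.infinitePi fun _ : Zd d => μ)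

theorem gg_mean (y x : Zd d) :
    ∫ ω, gg ψ T y x ω ∂(Measure.infinitePi fun _ : Zd d => μ) = PP ψ T μ (x - y) := by
  unfold PP
  have h1 : ∀ ω, gg ψ T y x ω = gg ψ T 0 (x - y) (sh y ω) := fun ω => gg_shift hψ y x ω
  simp only [h1]
  have h2 := (sh_mp μ y).map_eq
  conv_rhs => rw [← h2]
  rw [integral_map (sh_mp μ y).measurable.aemeasurable
    (gg_meas hψ hM 0 (x - y)).aestronglyMeasurable]

omit hM [IsProbabilityMeasure μ] in
theorem PP_nonneg (z : Zd d) : 0 ≤ PP ψ T μ z :=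
  integral_nonneg fun ω => gg_nonneg hψ 0 z ω

theorem PP_sum (s : Finset (Zd d)) : ∑ z ∈ s, PP ψ T μ z ≤ 1 := by
  unfold PP
  rw [← integral_finsetSum _ fun z _ => gg_int hψ hM 0 z]
  refine (integral_mono (integrable_finsetSum _ fun z _ => gg_int hψ hM 0 z)
    (integrable_const 1) fun ω => gg_sum hψ 0 s ω).trans ?_
  simp

theorem PP_summable : Summable (PP ψ T μ) :=
  summable_of_sum_le (fun z => PP_nonneg hψ z) fun s => PP_sum hψ hM s

theorem PP_tsum : ∑' z, PP ψ T μ z ≤ 1 :=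
  (PP_summable hψ hM).tsum_le_of_sum_le fun s => PP_sum hψ hM s

omit hM [IsProbabilityMeasure μ] in
/-- the Fourier transform for a fixed potential -/
theorem inner_sum (p : Fin d → ℝ) (ω : Zd d → ℝ) :
    ∑' z : Zd d, ph p z * ((gg ψ T 0 z ω : ℝ) : ℂ) =
      ∫ u in (0 : ℝ)..1, ((2 * (1 - u) : ℝ) : ℂ) *
        ∑' x : Zd d, ph p x * ((‖ψ ω 0 (u * T) x‖ ^ 2 : ℝ) : ℂ) := by
  have hci : ∀ z : Zd d, Continuous fun u : ℝ =>
      ph p z * ((2 * (1 - u) * ‖ψ ω 0 (u * T) z‖ ^ 2 : ℝ) : ℂ) := fun z =>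
    continuous_const.mul (Complex.continuous_ofReal.comp (cu hψ 0 z ω))
  have hI : ∀ z : Zd d, Integrable (fun u : ℝ =>
      ph p z * ((2 * (1 - u) * ‖ψ ω 0 (u * T) z‖ ^ 2 : ℝ) : ℂ))
      (volume.restrict (Set.Ioc 0 1)) := fun z =>
    ((hci z).integrableOn_Icc (a := 0) (b := 1)).mono_set Set.Ioc_subset_Icc_self
  have hn : ∀ z : Zd d, ∫ u in Set.Ioc (0 : ℝ) 1,
      ‖ph p z * ((2 * (1 - u) * ‖ψ ω 0 (u * T) z‖ ^ 2 : ℝ) : ℂ)‖ = gg ψ T 0 z ω := by
    intro z
    unfold gg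
    rw [intervalIntegral.integral_of_le zero_le_one]
    refine setIntegral_congr_fun measurableSet_Ioc fun u hu => ?_
    rw [norm_mul, ph_norm, one_mul, Complex.norm_real, Real.norm_eq_abs, abs_of_nonneg]
    have := hu.2
    have : 0 ≤ 1 - u := by linarith
    positivity
  have h1 := hasSum_integral_of_summable_integral_norm hI (by
    simp only [hn]
    exact summable_of_sum_le (fun z => gg_nonneg hψ 0 z ω) fun s => gg_sum hψ 0 s ω)
  have h2 : ∀ z : Zd d, ∫ u in Set.Ioc (0 : ℝ) 1,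
      ph p z * ((2 * (1 - u) * ‖ψ ω 0 (u * T) z‖ ^ 2 : ℝ) : ℂ) =
      ph p z * ((gg ψ T 0 z ω : ℝ) : ℂ) := by
    intro z
    rw [integral_const_mul, integral_complex_ofReal]
    unfold gg
    rw [intervalIntegral.integral_of_le zero_le_one]
  simp only [h2] at h1
  rw [h1.tsum_eq, intervalIntegral.integral_of_le zero_le_one]
  refine setIntegral_congr_fun measurableSet_Ioc fun u _ => ?_
  rw [← tsum_mul_left]
  refine tsum_congr fun z => ?_
  push_cast
  ring

theorem PP_four (p : Fin d → ℝ) :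
    ∑' z : Zd d, ph p z * ((PP ψ T μ z : ℝ) : ℂ) =
      ∫ ω, (∑' z : Zd d, ph p z * ((gg ψ T 0 z ω : ℝ) : ℂ))
        ∂(Measure.infinitePi fun _ : Zd d => μ) := by
  have h1 := hasSum_integral_of_summable_integral_norm
    (μ := Measure.infinitePi fun _ : Zd d => μ)
    (F := fun (z : Zd d) ω => ph p z * ((gg ψ T 0 z ω : ℝ) : ℂ))
    (fun z => ((gg_int hψ hM 0 z).ofReal (𝕜 := ℂ)).const_mul (ph p z)) (by
      refine (PP_summable (T := T) (μ := μ) hψ hM).congr fun z => ?_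
      unfold PP
      refine integral_congr_ae (Filter.Eventually.of_forall fun ω => ?_)
      simp only
      rw [norm_mul, ph_norm, one_mul, Complex.norm_real, Real.norm_eq_abs,
        abs_of_nonneg (gg_nonneg hψ 0 z ω)])
  rw [← h1.tsum_eq]
  refine tsum_congr fun z => ?_
  rw [integral_const_mul, integral_complex_ofReal]
  rfl

end

theorem t_EXP : Pool.Agent.Q218.LE.S_MEAS → Pool.Agent.Q218.LE.S_FOUR →
    Pool.Agent.Q218.LE.S_EXP := by
  intro hMEAS hFOUR d hd μ _ lam T κ ε R G ψ hψ hT hκ hε hR hdR hG hG1 hG2 Λ c hc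
  have hM : ∀ (y : Zd d) (t : ℝ) (x : Zd d), Measurable fun ω => ψ ω y t x := fun y t x =>
    hMEAS d hd (Zd d → ℝ) y (fun ω x => lam * ω x) (fun ω => ψ ω y)
      (fun x => by fun_prop) (fun ω => hψ ω y) t x
  -- the correlation function
  have hS : ∀ ω, (∫ u in (0 : ℝ)..1, 2 * (1 - u) * (Sc (ψ ω) Λ c (u * T)).re) =
      ∑ x ∈ Λ, ∑ y ∈ Λ, ((starRingEnd ℂ) (c x) * c y).re * gg ψ T y x ω := by
    intro ω
    have h1 : ∀ u : ℝ, 2 * (1 - u) * (Sc (ψ ω) Λ c (u * T)).re =
        ∑ x ∈ Λ, ∑ y ∈ Λ, ((starRingEnd ℂ) (c x) * c y).re *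
          (2 * (1 - u) * ‖ψ ω y (u * T) x‖ ^ 2) := by
      intro u
      unfold Sc
      rw [Complex.re_sum, Finset.mul_sum]
      refine Finset.sum_congr rfl fun x _ => ?_
      rw [Complex.re_sum, Finset.mul_sum]
      refine Finset.sum_congr rfl fun y _ => ?_
      rw [Complex.re_mul_ofReal]
      ring
    simp only [h1]
    rw [intervalIntegral.integral_finsetSum fun x _ =>
      (continuous_finsetSum _ fun y _ => (cu hψ y x ω).const_mul _).intervalIntegrable 0 1]
    refine Finset.sum_congr rfl fun x _ => ?_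
    rw [intervalIntegral.integral_finsetSum fun y _ =>
      ((cu hψ y x ω).const_mul _).intervalIntegrable 0 1]
    refine Finset.sum_congr rfl fun y _ => ?_
    rw [intervalIntegral.integral_const_mul]
    rfl
  simp only [hS]
  have hI : ∀ x y, Integrable (fun ω => ((starRingEnd ℂ) (c x) * c y).re * gg ψ T y x ω)
      (Measure.infinitePi fun _ : Zd d => μ) := fun x y => (gg_int hψ hM y x).const_mul _
  refine ⟨integrable_finsetSum _ fun x _ => integrable_finsetSum _ fun y _ => hI x y, ?_⟩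
  rw [integral_finsetSum _ fun x _ => integrable_finsetSum _ fun y _ => hI x y]
  have h3 : ∑ x ∈ Λ, ∫ ω, ∑ y ∈ Λ, ((starRingEnd ℂ) (c x) * c y).re * gg ψ T y x ω
      ∂(Measure.infinitePi fun _ : Zd d => μ) =
      (∑ x ∈ Λ, ∑ y ∈ Λ, (starRingEnd ℂ) (c x) * c y * ((PP ψ T μ (x - y) : ℝ) : ℂ)).re := by
    rw [Complex.re_sum]
    refine Finset.sum_congr rfl fun x _ => ?_
    rw [integral_finsetSum _ fun y _ => hI x y, Complex.re_sum]
    refine Finset.sum_congr rfl fun y _ => ?_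
    rw [integral_const_mul, gg_mean hψ hM, Complex.re_mul_ofReal]
  rw [h3]
  refine hFOUR d Λ c (PP ψ T μ) κ (2 * ε) R (fun z => PP_nonneg hψ z) (PP_summable hψ hM)
    (PP_tsum hψ hM) hκ (by linarith) hR hdR fun p hp1 hp2 => ?_
  rw [PP_four hψ hM]
  -- the bound of the integrand
  have hb1 : ∀ ω, ‖∑' z : Zd d, ph p z * ((gg ψ T 0 z ω : ℝ) : ℂ)‖ ≤ 1 := by
    intro ω
    have hs : Summable fun z => gg ψ T 0 z ω :=
      summable_of_sum_le (fun z => gg_nonneg hψ 0 z ω) fun s => gg_sum hψ 0 s ω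
    have hn : ∀ z, ‖ph p z * ((gg ψ T 0 z ω : ℝ) : ℂ)‖ = gg ψ T 0 z ω := fun z => by
      rw [norm_mul, ph_norm, one_mul, Complex.norm_real, Real.norm_eq_abs,
        abs_of_nonneg (gg_nonneg hψ 0 z ω)]
    refine (norm_tsum_le_tsum_norm (by simpa only [hn] using hs)).trans ?_
    simp only [hn]
    exact hs.tsum_le_of_sum_le fun s => gg_sum hψ 0 s ω
  have hb2 : ∀ ω ∈ G, ‖∑' z : Zd d, ph p z * ((gg ψ T 0 z ω : ℝ) : ℂ)‖ ≤ ε := by
    intro ω hω
    rw [inner_sum hψ]
    exact hG2 ω hω p hp1 hp2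
  have hb3 : ∀ ω, ‖∑' z : Zd d, ph p z * ((gg ψ T 0 z ω : ℝ) : ℂ)‖ ≤
      ε + Set.indicator Gᶜ (fun _ => (1 : ℝ)) ω := by
    intro ω
    by_cases hω : ω ∈ G
    · rw [Set.indicator_of_notMem (by simpa using hω), add_zero]
      exact hb2 ω hω
    · rw [Set.indicator_of_mem (by simpa using hω)]
      exact (hb1 ω).trans (by linarith)
  have hint : Integrable (Set.indicator Gᶜ (fun _ => (1 : ℝ)))
      (Measure.infinitePi fun _ : Zd d => μ) := (integrable_const 1).indicator hG.compl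
  have hint2 : Integrable (fun ω => ε + Set.indicator Gᶜ (fun _ => (1 : ℝ)) ω)
      (Measure.infinitePi fun _ : Zd d => μ) := (integrable_const ε).add hint
  refine (norm_integral_le_of_norm_le hint2 (Filter.Eventually.of_forall hb3)).trans ?_
  have h5 : ∫ ω, (ε + Set.indicator Gᶜ (fun _ => (1 : ℝ)) ω)
      ∂(Measure.infinitePi fun _ : Zd d => μ) = ε +
        (Measure.infinitePi fun _ : Zd d => μ).real Gᶜ := by
    rw [integral_add (integrable_const ε) hint, integral_indicator hG.compl]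
    simp
  have h6 := probReal_compl_eq_one_sub (μ := Measure.infinitePi fun _ : Zd d => μ) hG
  rw [h6] at h5
  exact h5.le.trans (by linarith)

end Pool.Agent.Q246.LE.EX
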