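import Pool.Agent.Q218.LE.Stm
import Mathlib.Analysis.Fourier.AddCircleMulti

/-! Project LE (helper218), job FOUR: a quadratic form on `ℤ^d` in Fourier space. -/

set_option autoImplicit false

open scoped BigOperators ComplexConjugate
open MeasureTheory UnitAddTorus

namespace Pool.Agent.Q246.LE

open Pool.Agent.H4R2.LO (Zd bx)
open Pool.Agent.TH794.HK (ph ph_norm)

variable {d : ℕ}

/-- the normalised measure of the torus -/
noncomputable def mt (d : ℕ) : Measure (UnitAddTorus (Fin d)) :=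
  Measure.pi fun _ => (AddCircle.haarAddCircle : Measure UnitAddCircle)

instance : IsProbabilityMeasure (mt d) := by
  unfold mt
  infer_instance

theorem int_four (n : ℤ) :
    ∫ t : UnitAddCircle, fourier n t ∂AddCircle.haarAddCircle = if n = 0 then 1 else 0 := by
  have h := (orthonormal_iff_ite.mp (orthonormal_fourier (T := 1))) 0 n
  simp only [ContinuousMap.inner_toLp, ← fourier_neg, ← fourier_add] at h
  simp only [neg_zero, add_zero] at h
  rw [show (∫ t : UnitAddCircle, fourier n t ∂AddCircle.haarAddCircle) =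
    (if 0 = n then 1 else 0) from h]
  simp only [eq_comm]

theorem int_mf (n : Zd d) : ∫ θ, mFourier n θ ∂(mt d) = if n = 0 then 1 else 0 := by
  unfold mt
  simp only [mFourier, ContinuousMap.coe_mk]
  rw [integral_fintype_prod_eq_prod (𝕜 := ℂ) (fun i t => fourier (n i) t)]
  simp only [int_four]
  by_cases h : n = 0
  · simp [h]
  · rw [if_neg h]
    obtain ⟨i, hi⟩ := Function.ne_iff.mp h
    exact Finset.prod_eq_zero (Finset.mem_univ i) (by simpa using hi)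

theorem mf_norm (n : Zd d) (θ : UnitAddTorus (Fin d)) : ‖mFourier n θ‖ = 1 := by
  simp [mFourier, norm_prod]

theorem ci {F : UnitAddTorus (Fin d) → ℂ} (h : Continuous F) : Integrable F (mt d) :=
  h.integrable_of_hasCompactSupport (HasCompactSupport.of_compactSpace F)

theorem ciR {F : UnitAddTorus (Fin d) → ℝ} (h : Continuous F) : Integrable F (mt d) :=
  h.integrable_of_hasCompactSupport (HasCompactSupport.of_compactSpace F)

/-- representatives -/
theorem rep (θ : UnitAddTorus (Fin d)) : ∃ p : Fin d → ℝ, (∀ i, |p i| ≤ Real.pi) ∧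
    ∀ n : Zd d, mFourier (-n) θ = ph p n := by
  have h1 : ∀ i, ∃ r : ℝ, |r| ≤ 1 / 2 ∧ (r : UnitAddCircle) = θ i := by
    intro i
    obtain ⟨s, hs⟩ := QuotientAddGroup.mk_surjective (θ i)
    refine ⟨s - round s, abs_sub_round s, ?_⟩
    rw [← hs]
    have h2 : (((s - round s : ℝ)) : UnitAddCircle) = (s : UnitAddCircle) - ((round s : ℝ) : UnitAddCircle) := by
      exact AddCircle.coe_sub ..
    rw [h2]
    have h3 : ((round s : ℝ) : UnitAddCircle) = 0 := by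
      rw [AddCircle.coe_eq_zero_iff]
      exact ⟨round s, by simp⟩
    rw [h3, sub_zero]
  choose r hr1 hr2 using h1
  refine ⟨fun i => -(2 * Real.pi * r i), fun i => ?_, fun n => ?_⟩
  · rw [abs_neg, abs_mul, abs_of_pos (by positivity : (0 : ℝ) < 2 * Real.pi)]
    have := hr1 i
    nlinarith [Real.pi_pos]
  · unfold ph
    simp only [mFourier, ContinuousMap.coe_mk]
    have h4 : ∀ i, fourier ((-n) i) (θ i) =
        Complex.exp (Complex.I * ((-(2 * Real.pi * r i) * (n i : ℝ) : ℝ) : ℂ)) := by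
      intro i
      rw [← hr2 i, fourier_coe_apply]
      congr 1
      push_cast
      simp only [Pi.neg_apply, Int.cast_neg]
      ring
    rw [Finset.prod_congr rfl fun i _ => h4 i, ← Complex.exp_sum]
    congr 1
    push_cast
    rw [Finset.mul_sum]

/-- finite Fourier sums -/
noncomputable def Fs (Z : Finset (Zd d)) (g : Zd d → ℂ) (θ : UnitAddTorus (Fin d)) : ℂ :=
  ∑ z ∈ Z, g z * mFourier (-z) θ

theorem Fs_cont (Z : Finset (Zd d)) (g : Zd d → ℂ) : Continuous (Fs Z g) := by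
  unfold Fs
  fun_prop

/-- the series -/
noncomputable def Ps (P : Zd d → ℝ) (θ : UnitAddTorus (Fin d)) : ℂ :=
  ∑' z : Zd d, mFourier (-z) θ * ((P z : ℝ) : ℂ)

theorem Ps_le (P : Zd d → ℝ) (hP : ∀ z, 0 ≤ P z) (z : Zd d) (θ : UnitAddTorus (Fin d)) :
    ‖mFourier (-z) θ * ((P z : ℝ) : ℂ)‖ ≤ P z := by
  rw [norm_mul, mf_norm, one_mul, Complex.norm_real, Real.norm_eq_abs, abs_of_nonneg (hP z)]

theorem Ps_cont (P : Zd d → ℝ) (hP : ∀ z, 0 ≤ P z) (hs : Summable P) : Continuous (Ps P) := by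
  unfold Ps
  exact continuous_tsum (fun z => by fun_prop) hs fun z θ => Ps_le P hP z θ

theorem Ps_coef (P : Zd d → ℝ) (hP : ∀ z, 0 ≤ P z) (hs : Summable P) (n : Zd d) :
    ∫ θ, mFourier n θ * Ps P θ ∂(mt d) = ((P n : ℝ) : ℂ) := by
  have h1 := hasSum_integral_of_summable_integral_norm (μ := mt d)
    (F := fun (z : Zd d) θ => mFourier n θ * (mFourier (-z) θ * ((P z : ℝ) : ℂ)))
    (fun z => ci (by fun_prop)) (by
      refine Summable.of_nonneg_of_le (fun z => integral_nonneg fun θ => norm_nonneg _) (fun z => ?_) hs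
      refine (integral_mono (ciR (by fun_prop)) (integrable_const (P z)) fun θ => ?_).trans ?_
      · simp only [norm_mul, mf_norm, one_mul]
        rw [Complex.norm_real, Real.norm_eq_abs, abs_of_nonneg (hP z)]
      · simp)
  have h2 : ∀ θ, ∑' z : Zd d, mFourier n θ * (mFourier (-z) θ * ((P z : ℝ) : ℂ)) =
      mFourier n θ * Ps P θ := fun θ => tsum_mul_left
  simp only [h2] at h1
  have h3 : ∀ z : Zd d, ∫ θ, mFourier n θ * (mFourier (-z) θ * ((P z : ℝ) : ℂ)) ∂(mt d) =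
      if z = n then ((P z : ℝ) : ℂ) else 0 := by
    intro z
    have h4 : ∀ θ : UnitAddTorus (Fin d), mFourier n θ * (mFourier (-z) θ * ((P z : ℝ) : ℂ)) =
        mFourier (n + -z) θ * ((P z : ℝ) : ℂ) := by
      intro θ
      rw [mFourier_add]
      ring
    simp only [h4]
    rw [integral_mul_const, int_mf]
    by_cases h5 : z = n
    · rw [if_pos h5, if_pos (by rw [h5]; simp), one_mul]
    · rw [if_neg h5, if_neg, zero_mul]
      intro h6
      exact h5 (by rw [← sub_eq_add_neg, sub_eq_zero] at h6; exact h6.symm)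
  simp only [h3] at h1
  have h7 := h1.tsum_eq
  rw [tsum_ite_eq] at h7
  exact h7.symm

theorem quad (Λ : Finset (Zd d)) (c : Zd d → ℂ) (P : Zd d → ℝ) (hP : ∀ z, 0 ≤ P z)
    (hs : Summable P) :
    ∫ θ, ((‖Fs Λ c θ‖ ^ 2 : ℝ) : ℂ) * Ps P θ ∂(mt d) =
      ∑ x ∈ Λ, ∑ y ∈ Λ, (starRingEnd ℂ) (c x) * c y * ((P (x - y) : ℝ) : ℂ) := by
  have hc := Ps_cont P hP hs
  have h1 : ∀ θ, ((‖Fs Λ c θ‖ ^ 2 : ℝ) : ℂ) * Ps P θ =
      ∑ x ∈ Λ, ∑ y ∈ Λ, (starRingEnd ℂ) (c x) * c y * (mFourier (x - y) θ * Ps P θ) := by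
    intro θ
    have h2 : ((‖Fs Λ c θ‖ ^ 2 : ℝ) : ℂ) = (starRingEnd ℂ) (Fs Λ c θ) * Fs Λ c θ := by
      rw [Complex.conj_mul']
      push_cast
      ring
    rw [h2]
    unfold Fs
    rw [map_sum, Finset.sum_mul_sum, Finset.sum_mul]
    refine Finset.sum_congr rfl fun x _ => ?_
    rw [Finset.sum_mul]
    refine Finset.sum_congr rfl fun y _ => ?_
    rw [map_mul, ← mFourier_neg, neg_neg, sub_eq_add_neg, mFourier_add]
    ring
  simp only [h1]
  rw [integral_finsetSum _ fun x _ => ci (by fun_prop)]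
  refine Finset.sum_congr rfl fun x _ => ?_
  rw [integral_finsetSum _ fun y _ => ci (by fun_prop)]
  refine Finset.sum_congr rfl fun y _ => ?_
  rw [integral_const_mul, Ps_coef P hP hs]

theorem pars (Λ : Finset (Zd d)) (c : Zd d → ℂ) :
    ∫ θ, ‖Fs Λ c θ‖ ^ 2 ∂(mt d) = ∑ x ∈ Λ, ‖c x‖ ^ 2 := by
  have h1 : ∀ θ, ((‖Fs Λ c θ‖ ^ 2 : ℝ) : ℂ) =
      ∑ x ∈ Λ, ∑ y ∈ Λ, (starRingEnd ℂ) (c x) * c y * (mFourier (x - y) θ) := by
    intro θ
    have h2 : ((‖Fs Λ c θ‖ ^ 2 : ℝ) : ℂ) = (starRingEnd ℂ) (Fs Λ c θ) * Fs Λ c θ := by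
      rw [Complex.conj_mul']
      push_cast
      ring
    rw [h2]
    unfold Fs
    rw [map_sum, Finset.sum_mul_sum]
    refine Finset.sum_congr rfl fun x _ => ?_
    refine Finset.sum_congr rfl fun y _ => ?_
    rw [map_mul, ← mFourier_neg, neg_neg, sub_eq_add_neg, mFourier_add]
    ring
  have h3 : ((∫ θ, ‖Fs Λ c θ‖ ^ 2 ∂(mt d) : ℝ) : ℂ) = ((∑ x ∈ Λ, ‖c x‖ ^ 2 : ℝ) : ℂ) := by
    rw [← integral_complex_ofReal]
    simp only [h1]
    rw [integral_finsetSum _ fun x _ => ci (by fun_prop)]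
    push_cast
    refine Finset.sum_congr rfl fun x hx => ?_
    rw [integral_finsetSum _ fun y _ => ci (by fun_prop)]
    have h4 : ∀ y ∈ Λ, ∫ θ, (starRingEnd ℂ) (c x) * c y * (mFourier (x - y) θ) ∂(mt d) =
        if x = y then (starRingEnd ℂ) (c x) * c y else 0 := by
      intro y _
      rw [integral_const_mul, int_mf]
      by_cases h5 : x = y
      · rw [if_pos h5, if_pos (by rw [h5]; simp), mul_one]
      · rw [if_neg h5, if_neg (sub_ne_zero.2 h5), mul_zero]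
    rw [Finset.sum_congr rfl h4, Finset.sum_ite_eq, if_pos hx, Complex.conj_mul']
  exact_mod_cast h3

/-- the extension by zero, summed over a cube -/
noncomputable def gz (Λ Q : Finset (Zd d)) (c : Zd d → ℂ) (z : Zd d) : ℂ :=
  ∑ h ∈ Q, if z + h ∈ Λ then c (z + h) else 0

/-- the support -/
noncomputable def ZZ (Λ Q : Finset (Zd d)) : Finset (Zd d) :=
  (Λ ×ˢ Q).image fun q => q.1 - q.2

theorem gz_zero (Λ Q : Finset (Zd d)) (c : Zd d → ℂ) (z : Zd d) (hz : z ∉ ZZ Λ Q) :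
    gz Λ Q c z = 0 := by
  unfold gz
  refine Finset.sum_eq_zero fun h hh => ?_
  rw [if_neg]
  intro hx
  apply hz
  unfold ZZ
  rw [Finset.mem_image]
  exact ⟨(z + h, h), Finset.mem_product.2 ⟨hx, hh⟩, by simp⟩

theorem Fs_gz (Λ Q : Finset (Zd d)) (c : Zd d → ℂ) (θ : UnitAddTorus (Fin d)) :
    Fs (ZZ Λ Q) (gz Λ Q c) θ = Fs Λ c θ * ∑ h ∈ Q, mFourier h θ := by
  unfold Fs gz
  rw [Finset.sum_mul_sum, Finset.sum_comm]
  rw [Finset.sum_congr rfl fun z _ => Finset.sum_mul Q _ (mFourier (-z) θ), Finset.sum_comm]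
  refine Finset.sum_congr rfl fun h hh => ?_
  rw [← Finset.sum_subset (s₁ := Λ.image fun x => x - h)]
  · rw [Finset.sum_image]
    · refine Finset.sum_congr rfl fun x hx => ?_
      rw [sub_add_cancel, if_pos hx, mul_assoc, ← mFourier_add]
      congr 2
      congr 1
      abel
    · intro x _ y _ hxy
      exact sub_left_injective hxy
  · intro z hz
    rw [Finset.mem_image] at hz
    obtain ⟨x, hx, rfl⟩ := hz
    unfold ZZ
    rw [Finset.mem_image]
    exact ⟨(x, h), Finset.mem_product.2 ⟨hx, hh⟩, rfl⟩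
  · intro z _ hz
    rw [if_neg, zero_mul]
    intro hx
    apply hz
    rw [Finset.mem_image]
    exact ⟨z + h, hx, by simp⟩

theorem dir (R : ℕ) (κ : ℝ) (p : Fin d → ℝ) (hκ : 0 < κ) (hR : d * κ * R ≤ 1)
    (hp : ∑ i, p i ^ 2 < κ ^ 2) (θ : UnitAddTorus (Fin d))
    (hθ : ∀ n : Zd d, mFourier (-n) θ = ph p n) :
    (R : ℝ) ^ d / 2 ≤
      ‖∑ h ∈ Fintype.piFinset (fun _ : Fin d => Finset.Ico (0 : ℤ) R), mFourier h θ‖ := by
  have hpi : ∀ i, |p i| ≤ κ := by
    intro i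
    have h1 : p i ^ 2 ≤ κ ^ 2 :=
      (Finset.single_le_sum (f := fun i => p i ^ 2) (fun i _ => sq_nonneg _)
        (Finset.mem_univ i)).trans hp.le
    exact abs_le_of_sq_le_sq h1 hκ.le
  have hre : ∀ h ∈ Fintype.piFinset (fun _ : Fin d => Finset.Ico (0 : ℤ) R),
      1 / 2 ≤ (mFourier h θ).re := by
    intro h hh
    rw [Fintype.mem_piFinset] at hh
    have h1 := hθ (-h)
    rw [neg_neg] at h1
    rw [h1]
    unfold ph
    rw [mul_comm, Complex.exp_ofReal_mul_I_re]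
    have h2 : |∑ i, p i * (((-h) i : ℤ) : ℝ)| ≤ 1 := by
      refine (Finset.abs_sum_le_sum_abs _ _).trans ?_
      have h3 : ∀ i ∈ (Finset.univ : Finset (Fin d)), |p i * (((-h) i : ℤ) : ℝ)| ≤ κ * R := by
        intro i _
        have h4 := Finset.mem_Ico.1 (hh i)
        rw [abs_mul]
        have h5 : |(((-h) i : ℤ) : ℝ)| ≤ R := by
          rw [Pi.neg_apply, Int.cast_neg, abs_neg, abs_of_nonneg (by exact_mod_cast h4.1)]
          exact_mod_cast h4.2.le
        exact mul_le_mul (hpi i) h5 (abs_nonneg _) hκ.le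
      refine (Finset.sum_le_sum h3).trans ?_
      rw [Finset.sum_const, Finset.card_univ, Fintype.card_fin, nsmul_eq_mul]
      linarith
    have h6 := Real.one_sub_sq_div_two_le_cos (x := ∑ i, p i * (((-h) i : ℤ) : ℝ))
    have h7 : (∑ i, p i * (((-h) i : ℤ) : ℝ)) ^ 2 ≤ 1 := by
      rw [← sq_abs]
      nlinarith [abs_nonneg (∑ i, p i * (((-h) i : ℤ) : ℝ))]
    linarith
  refine le_trans ?_ (Complex.re_le_norm _)
  rw [Complex.re_sum]
  refine le_trans ?_ (Finset.card_nsmul_le_sum _ _ _ hre)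
  rw [Fintype.card_piFinset]
  simp only [Int.card_Ico, sub_zero, Int.toNat_natCast, Finset.prod_const, Finset.card_univ,
    Fintype.card_fin, nsmul_eq_mul, Nat.cast_pow]
  exact le_of_eq (by ring)

theorem t_FOUR : Pool.Agent.Q218.LE.S_FOUR := by
  intro d Λ c P κ ε R hP hs h1 hκ hε hR hdR hph
  obtain ⟨Q, hQ⟩ : ∃ Q : Finset (Zd d),
    Q = Fintype.piFinset (fun _ : Fin d => Finset.Ico (0 : ℤ) R) := ⟨_, rfl⟩
  have hRp : (0 : ℝ) < (R : ℝ) ^ d := by positivity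
  rw [← quad Λ c P hP hs, ← hQ]
  have hcc := Ps_cont P hP hs
  have hF := Fs_cont Λ c
  have hG := Fs_cont (ZZ Λ Q) (gz Λ Q c)
  have e1 : (∫ θ, ((‖Fs Λ c θ‖ ^ 2 : ℝ) : ℂ) * Ps P θ ∂(mt d)).re =
      ∫ θ, ‖Fs Λ c θ‖ ^ 2 * (Ps P θ).re ∂(mt d) := by
    have h2 := integral_re (𝕜 := ℂ) (μ := mt d)
      (f := fun θ => ((‖Fs Λ c θ‖ ^ 2 : ℝ) : ℂ) * Ps P θ) (ci (by fun_prop))
    rw [RCLike.re_eq_complex_re] at h2
    rw [← h2]
    refine integral_congr_ae (Filter.Eventually.of_forall fun θ => ?_)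
    simp only [Complex.re_ofReal_mul]
  have hPs1 : ∀ θ, ‖Ps P θ‖ ≤ 1 := by
    intro θ
    unfold Ps
    refine (norm_tsum_le_tsum_norm (Summable.of_nonneg_of_le (fun z => norm_nonneg _)
      (fun z => Ps_le P hP z θ) hs)).trans ?_
    refine le_trans (Summable.tsum_le_tsum (fun z => Ps_le P hP z θ)
      (Summable.of_nonneg_of_le (fun z => norm_nonneg _) (fun z => Ps_le P hP z θ) hs) hs) h1
  have hpt : ∀ θ, ‖Fs Λ c θ‖ ^ 2 * (Ps P θ).re ≤ ε * ‖Fs Λ c θ‖ ^ 2 +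
      4 * (((R : ℝ) ^ d)⁻¹ ^ 2 * ‖Fs (ZZ Λ Q) (gz Λ Q c) θ‖ ^ 2) := by
    intro θ
    obtain ⟨p, hp1, hp2⟩ := rep θ
    have hA : 0 ≤ ‖Fs Λ c θ‖ ^ 2 := sq_nonneg _
    by_cases hk : κ ^ 2 ≤ ∑ i, p i ^ 2
    · have h3 := hph p hp1 hk
      have h4 : Ps P θ = ∑' z : Zd d, ph p z * ((P z : ℝ) : ℂ) := by
        unfold Ps
        exact tsum_congr fun z => by rw [hp2]
      rw [← h4] at h3
      have h5 := (Complex.re_le_norm (Ps P θ)).trans h3
      have h6 : ‖Fs Λ c θ‖ ^ 2 * (Ps P θ).re ≤ ε * ‖Fs Λ c θ‖ ^ 2 := by nlinarith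
      refine h6.trans ?_
      have : 0 ≤ 4 * (((R : ℝ) ^ d)⁻¹ ^ 2 * ‖Fs (ZZ Λ Q) (gz Λ Q c) θ‖ ^ 2) := by positivity
      linarith
    · push Not at hk
      have h3 := dir R κ p hκ hdR hk θ hp2
      rw [← hQ] at h3
      rw [Fs_gz, norm_mul]
      have h5 := (Complex.re_le_norm (Ps P θ)).trans (hPs1 θ)
      have h6 : ‖Fs Λ c θ‖ ^ 2 * (Ps P θ).re ≤ ‖Fs Λ c θ‖ ^ 2 := by nlinarith
      refine h6.trans ?_
      have h7 : 1 ≤ 4 * (((R : ℝ) ^ d)⁻¹ ^ 2 * ‖∑ h ∈ Q, mFourier h θ‖ ^ 2) := by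
        have h8 : 1 / 2 ≤ ((R : ℝ) ^ d)⁻¹ * ‖∑ h ∈ Q, mFourier h θ‖ := by
          rw [inv_mul_eq_div, le_div_iff₀ hRp]
          linarith
        have h9 : (1 / 2 : ℝ) ^ 2 ≤ (((R : ℝ) ^ d)⁻¹ * ‖∑ h ∈ Q, mFourier h θ‖) ^ 2 :=
          pow_le_pow_left₀ (by norm_num) h8 2
        rw [mul_pow] at h9
        linarith
      have h10 : 0 ≤ ε * ‖Fs Λ c θ‖ ^ 2 := by positivity
      have h11 := mul_le_mul_of_nonneg_left h7 hA
      nlinarith
  rw [e1]
  refine (integral_mono (ciR (by fun_prop)) (ciR (by fun_prop)) hpt).trans ?_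
  rw [integral_add (ciR (by fun_prop)) (ciR (by fun_prop)), integral_const_mul, pars,
    integral_const_mul, integral_const_mul, pars]
  refine add_le_add le_rfl ?_
  refine mul_le_mul_of_nonneg_left (le_of_eq ?_) (by norm_num)
  rw [tsum_eq_sum (s := ZZ Λ Q)]
  · rw [Finset.mul_sum]
    refine Finset.sum_congr rfl fun z _ => ?_
    have h12 : (∑ h ∈ Q, if z + h ∈ Λ then c (z + h) else 0) = gz Λ Q c z := rfl
    rw [h12, norm_mul, mul_pow]
    congr 2
    rw [norm_inv, norm_pow]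
    simp
  · intro z hz
    have h12 : (∑ h ∈ Q, if z + h ∈ Λ then c (z + h) else 0) = gz Λ Q c z := rfl
    rw [h12, gz_zero Λ Q c z hz]
    simp

end Pool.Agent.Q246.LE
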